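import Pool.Agent.MP_d97ab6_al.H70.NGB

/-! The abstract non-arithmeticity criterion. -/

namespace Pool.Agent.MP_d97ab6_al.H91.NG

open Matrix Polynomial Filter Topology
open scoped Matrix.Norms.Operator

variable {G : Type} [Group G] {N : ℕ} {ρ : G →* Matrix (Fin N) (Fin N) ℂ} {π : G →* S2}

theorem unip_pow {g : G} {U : Matrix (Fin N) (Fin N) ℤ} (hU : ρ g = U.map (Int.castRingHom ℂ))
    (h : ∀ μ, (ρ g).charpoly.IsRoot μ → ‖μ‖ ≤ 1) : ∃ m, 0 < m ∧ IsNilpotent (U ^ m - 1) ∧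
      IsNilpotent (ρ (g ^ m) - 1) := by
  obtain ⟨m, m0, hm⟩ := kron U fun μ hμ => ⟨root_ne (hU ▸ hμ), h μ (hU ▸ hμ)⟩
  refine ⟨m, m0, hm, ?_⟩
  have := hm.map (Int.castRingHom ℂ).mapMatrix
  rwa [map_sub, map_pow, map_one, RingHom.mapMatrix_apply, ← hU, ← map_pow] at this

theorem Cov.core1 (h : Cov ρ π) {u v : G} {U V : Matrix (Fin N) (Fin N) ℤ} {a b : ℝ}
    (hU : ρ u = U.map (Int.castRingHom ℂ)) (hV : ρ v = V.map (Int.castRingHom ℂ)) (ha : 0 < a)
    (hb : 0 < b) (hu : π u = tT a) (hv : π v = tL b) (nU : IsNilpotent (U - 1))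
    (nu : IsNilpotent (ρ u - 1)) (irr : ∀ d : ℕ, 0 < d → Irrational ((a * b) ^ d)) : False := by
  have hc := mul_pos ha hb
  have ex : ∀ n : ℕ, ∃ t : ℝ, 0 < n → 0 < t ∧ Real.exp t + Real.exp (-t) = 2 + n * a * b :=
    fun n => (Nat.eq_zero_or_pos n).elim (fun e => ⟨0, fun h => absurd e h.ne'⟩) fun hn =>
      (exists_t (by positivity)).imp fun _ ht _ => ht
  choose t ht using ex
  choose μ hμ using fun n : ℕ => exists_roots (ρ (u ^ n * v))
  have hI : ∀ n : ℕ, ρ (u ^ n * v) = (U ^ n * V).map (Int.castRingHom ℂ) := fun n => by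
    rw [map_mul, map_pow, hU, hV, Matrix.map_mul, Matrix.map_pow]
  have hP : ∀ n : ℕ, 0 < n → ∃ P : S2, π (u ^ n * v) * P = P * tD (t n) := fun n hn => by
    rw [map_mul, map_pow, hu, hv, tT_pow]
    exact diag hb (ht n hn).1 (ht n hn).2
  have hR : ∀ n z, (ρ (u ^ n * v)).charpoly.IsRoot z ↔ ∃ i, z = μ n i := fun n z => by
    rw [hμ]
    simp [eval_prod, Finset.prod_eq_zero_iff, sub_eq_zero]
  obtain ⟨e, he⟩ : ∃ e : Fin N → ℝ, ∃ᶠ n in atTop, ∀ i, ‖μ n i‖ = Real.exp (e i * t n) := by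
    by_contra! hn
    obtain ⟨n, h1, h2⟩ := (((eventually_all_finite (Set.Finite.pi fun _ : Fin N =>
      Ex_finite (ρ := ρ) (π := π))).2 fun e _ => hn e).and (eventually_gt_atTop 0)).exists
    obtain ⟨P, hP⟩ := hP n h2
    choose e e1 e2 using fun i => h.root_Ex (ht n h2).1 hP ((hR n _).2 ⟨i, rfl⟩)
    obtain ⟨i, hi⟩ := h1 e fun i _ => e1 i
    exact hi (e2 i)
  have nb := frequently_iff_neBot.1 he
  set l := (atTop : Filter ℕ) ⊓ 𝓟 {n | ∀ i, ‖μ n i‖ = Real.exp (e i * t n)}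
  have hl : l ≤ atTop := inf_le_left
  have hev : ∀ᶠ n in l, ∀ i, ‖μ n i‖ = Real.exp (e i * t n) := mem_inf_of_right (mem_principal_self _)
  have T1 : Tendsto t atTop atTop := by
    refine Real.tendsto_exp_comp_atTop.1 (tendsto_atTop_mono' _ ?_
      (tendsto_natCast_atTop_atTop.atTop_mul_const hc))
    filter_upwards [eventually_gt_atTop 0] with n hn
    have := Real.exp_le_one_iff.2 (neg_nonpos.2 (ht n hn).1.le)
    linarith [(ht n hn).2]
  have T2 : Tendsto (fun n => Real.exp (t n) / n) atTop (𝓝 (a * b)) := by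
    have := (((Real.tendsto_exp_neg_atTop_nhds_zero.comp T1).const_sub 2).div_atTop
      tendsto_natCast_atTop_atTop).const_add (a * b)
    rw [add_zero] at this
    refine this.congr' ((eventually_gt_atTop 0).mono fun n hn => ?_)
    have p : (n : ℝ) ≠ 0 := by exact_mod_cast hn.ne'
    simp only [Function.comp]
    field_simp
    linarith [(ht n hn).2]
  have T3 := esymm_lim e (T1.mono_left hl) hev
  set S₀ := Finset.univ.filter fun i => 0 < e i with hS
  have cj : S₀.card ≤ N := S₀.card_le_univ.trans_eq (Fintype.card_fin N)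
  obtain ⟨q, hq⟩ := poly_coeff U V nU (N - S₀.card)
  have e1 : ∀ n : ℕ, ‖∑ S ∈ Finset.univ.powersetCard S₀.card, ∏ i ∈ S, μ n i‖
      = |((q.eval (n : ℚ) : ℚ) : ℝ)| := fun n => by
    have c1 : (Finset.univ.val.map (μ n)).card = N := by simp
    have c2 := Multiset.prod_X_sub_C_coeff (Finset.univ.val.map (μ n)) (k := N - S₀.card)
      (by rw [c1]; exact Nat.sub_le _ _)
    rw [c1, Nat.sub_sub_self cj, Finset.esymm_map_val, Multiset.map_map] at c2
    have c3 : (ρ (u ^ n * v)).charpoly.coeff (N - S₀.card) = _ := (congrArg (coeff · _) (hμ n)).trans c2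
    have c4 := congrArg norm c3
    rw [hI, charpoly_map, coeff_map, eq_intCast, Complex.norm_intCast, norm_mul, norm_pow, norm_neg,
      norm_one, one_pow, one_mul] at c4
    rw [← hq, Rat.cast_intCast, c4]
  simp only [e1] at T3
  obtain ⟨d, d1, d2⟩ := poly_lim hl q hc (T1.mono_left hl) (T2.mono_left hl) T3
  rcases d.eq_zero_or_pos with rfl | d0
  swap
  · exact d2 (irr d d0)
  have neg : ∀ i, e i ≤ 0 := fun i => not_lt.1 fun hi => (Finset.sum_pos
    (fun j hj => (Finset.mem_filter.1 hj).2) ⟨i, Finset.mem_filter.2 ⟨Finset.mem_univ i, hi⟩⟩).ne'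
      (d1.trans Nat.cast_zero)
  obtain ⟨n, h1, h2⟩ := (hev.and (hl (eventually_gt_atTop 0))).exists
  obtain ⟨P, hP⟩ := hP n h2
  obtain ⟨m, m0, -, hm⟩ := unip_pow (hI n) fun z hz => by
    obtain ⟨i, rfl⟩ := (hR n z).1 hz
    rw [h1]
    exact Real.exp_le_one_iff.2 (mul_nonpos_of_nonpos_of_nonneg (neg i) (ht n h2).1.le)
  refine h.not_unip (t := m * t n) (P := P) (mul_pos (Nat.cast_pos.2 m0) (ht n h2).1) ?_ ha.ne' hu nu hm
  rw [map_pow, ← tD_pow]
  exact ((show SemiconjBy P (tD (t n)) (π (u ^ n * v)) from hP.symm).pow_right m).eq.symm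

theorem Cov.core (h : Cov ρ π) {u v : G} {U V : Matrix (Fin N) (Fin N) ℤ} {a b : ℝ}
    (hU : ρ u = U.map (Int.castRingHom ℂ)) (hV : ρ v = V.map (Int.castRingHom ℂ)) (ha : 0 < a)
    (hb : 0 < b) (hu : π u = tT a) (hv : π v = tL b)
    (irr : ∀ m d : ℕ, 0 < m → 0 < d → Irrational ((m * a * b) ^ d)) : False := by
  obtain ⟨m, m0, h1, h2⟩ := unip_pow hU fun _ => h.root_le hu
  exact h.core1 (u := u ^ m) (U := U ^ m) (by rw [map_pow, hU, Matrix.map_pow]) hV
    (mul_pos (Nat.cast_pos.2 m0) ha) hb (by rw [map_pow, hu, tT_pow]) hv h1 h2 fun d => irr m d m0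

end Pool.Agent.MP_d97ab6_al.H91.NG
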