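import Pool.Agent.MP_d97ab6_al.H91.Base
import Pool.Agent.MP_d97ab6_al.H70.NGC

/-! A group containing the two unipotent elements is not arithmetic. -/

namespace Pool.Agent.MP_d97ab6_al.H91

open Matrix Complex Filter Topology

namespace NG

/-- The matrix of the embedding of `SL(2,ℝ)`. -/
noncomputable def im (s : S2) : M4 :=
  !![s.1 0 0, 0, 0, -(s.1 0 1 * I); 0, 1, 0, 0; 0, 0, 1, 0; s.1 1 0 * I, 0, 0, s.1 1 1]

theorem det_S2 (s : S2) : (s.1 0 0 : ℂ) * s.1 1 1 - s.1 0 1 * s.1 1 0 = 1 := by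
  have := s.2
  rw [det_fin_two] at this
  exact_mod_cast this

theorem im_det (s : S2) : (im s).det = 1 := by
  simp [im, det_succ_row_zero, Fin.sum_univ_succ, Fin.succAbove]
  linear_combination det_S2 s + (s.1 0 1 * s.1 1 0 : ℂ) * I_mul_I

theorem im_mem (s : S2) : (im s)ᴴ * J * im s = J := by
  ext i j
  fin_cases i <;> fin_cases j <;> simp [im, J, mul_apply, Fin.sum_univ_four]
  · ring
  · linear_combination det_S2 s + (s.1 0 1 * s.1 1 0 : ℂ) * I_mul_I
  · linear_combination det_S2 s + (s.1 0 1 * s.1 1 0 : ℂ) * I_mul_I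
  · ring

theorem im_mul (s s' : S2) : im (s * s') = im s * im s' := by
  ext i j
  fin_cases i <;> fin_cases j <;> simp [im, mul_apply, Fin.sum_univ_four, Fin.sum_univ_two]
  · linear_combination (s.1 0 1 * s'.1 1 0 : ℂ) * I_mul_I
  · ring
  · ring
  · linear_combination (s.1 1 0 * s'.1 0 1 : ℂ) * I_mul_I

/-- The embedding of `SL(2,ℝ)`. -/
noncomputable def io : S2 →* SU31 :=
  MonoidHom.mk' (fun s => ⟨⟨im s, im_det s⟩, im_mem s⟩) fun s s' =>
    Subtype.ext (Subtype.ext (im_mul s s'))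

theorem io_val (s : S2) : (io s).1.1 = im s := rfl

theorem io_one {s : S2} (h : io s = 1) : s = 1 := by
  have e : im s = 1 := congrArg (fun g : SU31 => g.1.1) h
  have a := congrFun (congrFun e 0) 0
  have b := congrFun (congrFun e 0) 3
  have c := congrFun (congrFun e 3) 0
  have d := congrFun (congrFun e 3) 3
  ext i j
  fin_cases i <;> fin_cases j <;> simp_all [im]

theorem im_bd {s : S2} {R : ℝ} (h : ∀ i j, |s.1 i j| ≤ R) (i j : Fin 4) : ‖im s i j‖ ≤ max 1 R := by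
  fin_cases i <;> fin_cases j <;> simp [im, h]

theorem closedEmb : IsClosedEmbedding fun g : SU31 => g.1.1 := by
  refine SpecialLinearGroup.isClosedEmbedding_val.comp (IsClosed.isClosedEmbedding_subtypeVal ?_)
  have c : Continuous fun g : SpecialLinearGroup (Fin 4) ℂ => g.1 := continuous_subtype_val
  exact isClosed_eq ((c.matrix_conjTranspose.mul continuous_const).mul c) continuous_const

theorem proper {H : Type} [Group H] [TopologicalSpace H] [IsTopologicalGroup H]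
    [SigmaCompactSpace H] (φ : H →* SU31) (hc : Continuous φ) (hs : Function.Surjective φ)
    (hk : IsCompact (φ.ker : Set H)) (ν : H → ℝ) (h1 : Continuous ν) (h0 : ∀ x, 0 ≤ ν x)
    (h2 : ∀ x y, ν (x * y) ≤ ν x * ν y) (R : ℝ) :
    ∃ C, 0 ≤ C ∧ ∀ x, (∀ i j, ‖(φ x).1.1 i j‖ ≤ R) → ν x ≤ C := by
  have : LocallyCompactSpace M4 := inferInstanceAs (LocallyCompactSpace (Fin 4 → Fin 4 → ℂ))
  have := closedEmb.locallyCompactSpace
  have := closedEmb.isEmbedding.t2Space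
  have op := φ.isOpenMap_of_sigmaCompact hs hc
  obtain ⟨B, hB⟩ := hk.bddAbove_image h1.continuousOn
  have B0 : 0 ≤ B := (h0 1).trans (hB ⟨1, φ.ker.one_mem, rfl⟩)
  have K := closedEmb.isCompact_preimage ((isCompact_closedBall (0 : ℂ) R).matrix (m := Fin 4)
    (n := Fin 4))
  obtain ⟨C, c0, hC⟩ := K.induction_on (p := fun s => ∃ C, 0 ≤ C ∧ ∀ x, φ x ∈ s → ν x ≤ C)
    ⟨0, le_rfl, fun _ h => h.elim⟩ (fun _ _ h ⟨C, c0, hC⟩ => ⟨C, c0, fun x hx => hC x (h hx)⟩)
    (fun _ _ ⟨C, c0, hC⟩ ⟨C', _, hC'⟩ => ⟨max C C', le_max_of_le_left c0, fun x hx =>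
      hx.elim (fun a => le_max_of_le_left (hC x a)) fun a => le_max_of_le_right (hC' x a)⟩)
    fun g _ => by
      obtain ⟨y, rfl⟩ := hs g
      refine ⟨φ '' {x | ν x < ν y + 1}, nhdsWithin_le_nhds (op.image_mem_nhds
        ((isOpen_lt h1 continuous_const).mem_nhds (lt_add_one (ν y)))), (ν y + 1) * B,
        mul_nonneg (add_nonneg (h0 y) zero_le_one) B0, fun x ⟨z, hz, e⟩ => ?_⟩
      have k : z⁻¹ * x ∈ φ.ker := by rw [MonoidHom.mem_ker, map_mul, map_inv, e, inv_mul_cancel]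
      have := h2 z (z⁻¹ * x)
      rw [mul_inv_cancel_left] at this
      exact this.trans (mul_le_mul (le_of_lt hz) (hB ⟨_, k, rfl⟩) (h0 _)
        (add_nonneg (h0 y) zero_le_one))
  exact ⟨C, c0, fun x hx => hC x fun i j => mem_closedBall_zero_iff.2 (hx i j)⟩

theorem irr {A B : ℤ} {d r k : ℕ} (hd : Irrational √d) (hA : 0 < A) (hB : 0 < B) (hr : 0 < r)
    (hk : 0 < k) : Irrational ((r * (A + B * √d) : ℝ) ^ k) := by
  have : ∀ n : ℕ, ∃ P Q : ℤ, 0 < P ∧ 0 < Q ∧ (A + B * √d : ℝ) ^ (n + 1) = P + Q * √d := fun n => by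
    induction n with
    | zero => exact ⟨A, B, hA, hB, by norm_num⟩
    | succ n ih =>
      obtain ⟨P, Q, h0, h1, h⟩ := ih
      refine ⟨P * A + Q * B * d, P * B + Q * A, by positivity, by positivity, ?_⟩
      rw [pow_succ, h]
      push_cast
      linear_combination (Q * B : ℝ) * Real.mul_self_sqrt (Nat.cast_nonneg (α := ℝ) d)
  obtain ⟨n, rfl⟩ := Nat.exists_eq_succ_of_ne_zero hk.ne'
  obtain ⟨P, Q, -, h0, h⟩ := this n
  rw [mul_pow, h, ← Nat.cast_pow]
  exact ((hd.intCast_mul h0.ne').intCast_add P).natCast_mul (pow_pos hr _).ne'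

theorem tT_neg (s : ℝ) : tT (-s) = (tT s)⁻¹ := eq_inv_of_mul_eq_one_left (by
  ext i j
  fin_cases i <;> fin_cases j <;> simp [tT, mul_apply, Fin.sum_univ_two])

theorem tL_neg (s : ℝ) : tL (-s) = (tL s)⁻¹ := eq_inv_of_mul_eq_one_left (by
  ext i j
  fin_cases i <;> fin_cases j <;> simp [tL, mul_apply, Fin.sum_univ_two])

open scoped Matrix.Norms.Operator in
theorem crit {Γ : Subgroup SU31} {a b : ℝ} (ha : 0 < a) (hb : 0 < b) (hγ : io (tT a) ∈ Γ)
    (hδ : io (tL b) ∈ Γ) (hi : ∀ r k : ℕ, 0 < r → 0 < k → Irrational ((r * (a * b)) ^ k)) :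
    ¬ IsArith Γ := by
  rintro ⟨N, H, φ, hH, hc, hs, hk, hcm⟩
  have : LocallyCompactSpace (Matrix (Fin N) (Fin N) ℝ) :=
    inferInstanceAs (LocallyCompactSpace (Fin N → Fin N → ℝ))
  have : SecondCountableTopology (Matrix (Fin N) (Fin N) ℝ) :=
    inferInstanceAs (SecondCountableTopology (Fin N → Fin N → ℝ))
  have : SecondCountableTopology (Matrix (Fin N) (Fin N) ℝ)ᵐᵒᵖ :=
    MulOpposite.opHomeomorph.symm.isEmbedding.secondCountableTopology
  have : SecondCountableTopology (GL (Fin N) ℝ) :=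
    Units.isEmbedding_embedProduct.secondCountableTopology
  have : LocallyCompactSpace H := hH.locallyCompactSpace
  have : SecondCountableTopology H :=
    (IsEmbedding.subtypeVal (p := (· ∈ H))).secondCountableTopology
  let ρ₀ : H →* Matrix (Fin N) (Fin N) ℂ :=
    (ofRealHom.mapMatrix.toMonoidHom.comp (Units.coeHom _)).comp H.subtype
  have cρ : Continuous ρ₀ :=
    (Units.continuous_val.comp continuous_subtype_val).matrix_map continuous_ofReal
  let G := (φ.comp (MonoidHom.fst H S2)).eqLocus (io.comp (MonoidHom.snd H S2))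
  have hC : Cov (ρ₀.comp ((MonoidHom.fst H S2).comp G.subtype))
      ((MonoidHom.snd H S2).comp G.subtype) := by
    refine ⟨fun s => ?_, fun R => ?_, fun g hg => io_one ?_⟩
    · obtain ⟨x, hx⟩ := hs (io s)
      exact ⟨⟨(x, s), hx⟩, rfl⟩
    · obtain ⟨C, c0, hC⟩ := proper φ hc hs hk (fun x => ‖ρ₀ x‖) cρ.norm (fun _ => norm_nonneg _)
        (fun x y => by rw [map_mul]; exact norm_mul_le _ _) (max 1 R)
      refine ⟨C, c0, fun g hg => hC g.1.1 fun i j => ?_⟩
      rw [show φ g.1.1 = io g.1.2 from g.2]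
      exact im_bd hg i j
    · have e : g.1.1 = 1 := Subtype.ext (Units.ext (Matrix.map_injective ofReal_injective
        (hg.trans (Matrix.map_one _ ofReal_zero ofReal_one).symm)))
      exact (show φ g.1.1 = io g.1.2 from g.2).symm.trans (by rw [e, map_one])
  have key : ∀ s : S2, io s ∈ Γ → ∃ k : ℕ, 0 < k ∧ ∃ (g : G) (U : Matrix (Fin N) (Fin N) ℤ),
      ρ₀ g.1.1 = U.map (Int.castRingHom ℂ) ∧ g.1.2 = s ^ k := fun s hs => by
    obtain ⟨k, k0, -, ⟨x, ⟨U, hU⟩, hx⟩, -⟩ := Subgroup.exists_pow_mem_of_relIndex_ne_zero hcm.1 hs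
    refine ⟨k, k0, ⟨(x, s ^ k), hx.trans (map_pow io s k).symm⟩, U, ?_, rfl⟩
    ext i j
    change ((x.1.1 i j : ℝ) : ℂ) = _
    rw [← show _ = x.1 from hU]
    simp
  obtain ⟨k, k0, u, U, hU, hu⟩ := key _ hγ
  obtain ⟨l, l0, v, V, hV, hv⟩ := key _ hδ
  refine hC.core (u := u) (v := v) hU hV (a := k * a) (b := l * b) (by positivity)
    (by positivity) (hu.trans (tT_pow _ _)) (hv.trans (tL_pow _ _)) fun m d m0 d0 => ?_
  have := hi (m * k * l) d (by positivity) d0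
  rwa [show ((m * k * l : ℕ) : ℝ) * (a * b) = m * (k * a) * (l * b) by push_cast; ring] at this

end NG

open NG in
/-- General form of the non-arithmeticity criterion. -/
theorem rowNAgen (τ ρ : ℝ) (A B : ℤ) (d : ℕ) (hd : Irrational √d) (hA : 0 < A) (hB : 0 < B)
    (h : τ * ρ = A + B * √d) (Γ : Subgroup SU31)
    (hT : ∃ g ∈ Γ, g.1.1 = !![1, 0, 0, (τ : ℂ) * I; 0, 1, 0, 0; 0, 0, 1, 0; 0, 0, 0, 1])
    (hL : ∃ g ∈ Γ, g.1.1 = !![1, 0, 0, 0; 0, 1, 0, 0; 0, 0, 1, 0; (ρ : ℂ) * I, 0, 0, 1]) :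
    ¬ IsArith Γ := by
  obtain ⟨γ, hγ, eγ⟩ := hT
  obtain ⟨δ, hδ, eδ⟩ := hL
  have e1 : io (tT (-τ)) = γ := Subtype.ext (Subtype.ext (by
    rw [eγ, io_val]
    ext i j
    fin_cases i <;> fin_cases j <;> simp [NG.im, tT]))
  have e2 : io (tL ρ) = δ := Subtype.ext (Subtype.ext (by
    rw [eδ, io_val]
    ext i j
    fin_cases i <;> fin_cases j <;> simp [NG.im, tL]))
  have p : 0 < τ * ρ := by rw [h]; positivity
  rcases pos_and_pos_or_neg_and_neg_of_mul_pos p with ⟨a, b⟩ | ⟨a, b⟩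
  · refine crit a b ?_ (e2 ▸ hδ) fun r k r0 k0 => h ▸ irr hd hA hB r0 k0
    rw [← neg_neg τ, tT_neg, map_inv, e1]
    exact Γ.inv_mem hγ
  · refine crit (neg_pos.2 a) (neg_pos.2 b) (e1 ▸ hγ) ?_ fun r k r0 k0 => ?_
    · rw [tL_neg, map_inv, e2]
      exact Γ.inv_mem hδ
    · rw [neg_mul_neg, h]
      exact irr hd hA hB r0 k0

end Pool.Agent.MP_d97ab6_al.H91
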