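import Mathlib

/-! Algebraic and asymptotic lemmas for the non-arithmeticity argument. -/

namespace Pool.Agent.MP_d97ab6_al.H91.NG

open Matrix Polynomial Filter Topology

theorem one_add_pow {R : Type} [Ring R] {ν : R} {K : ℕ} (h : ν ^ K = 0) (n : ℕ) :
    (1 + ν) ^ n = ∑ i ∈ Finset.range K, n.choose i • ν ^ i := by
  rw [add_comm, (Commute.one_right ν).add_pow]
  have e : ∀ i, ν ^ i * 1 ^ (n - i) * (n.choose i : R) = n.choose i • ν ^ i := fun i => by
    rw [one_pow, mul_one, nsmul_eq_mul, Nat.cast_comm]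
  simp only [e]
  rw [Finset.sum_subset (Finset.range_subset_range.2 (Nat.le_add_right (n + 1) K)),
    Finset.sum_subset (Finset.range_subset_range.2 (Nat.le_add_left K (n + 1)))]
  · intro i _ hi
    rw [pow_eq_zero_of_le (not_lt.1 (mt Finset.mem_range.2 hi)) h, smul_zero]
  · intro i _ hi
    rw [Nat.choose_eq_zero_of_lt (not_lt.1 (mt Finset.mem_range.2 hi)), zero_smul]

theorem sub_exp {R : Type} [NormedRing R] {x : R} (h : IsNilpotent (x - 1)) {ε : ℝ} (hε : 0 < ε) :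
    ∃ C, 0 ≤ C ∧ ∀ n : ℕ, ‖x ^ n‖ ≤ C * Real.exp (ε * n) := by
  obtain ⟨K, hK⟩ := h
  refine ⟨∑ i ∈ Finset.range K, ‖(x - 1) ^ i‖ / ε ^ i, by positivity, fun n => ?_⟩
  have := one_add_pow hK n
  rw [add_sub_cancel] at this
  rw [this, Finset.sum_mul]
  refine norm_sum_le_of_le _ fun i _ => norm_nsmul_le.trans ?_
  have a : (n.choose i : ℝ) ≤ n ^ i / i.factorial := Nat.choose_le_pow_div i n
  have b := Real.pow_div_factorial_le_exp (ε * n) (by positivity) i
  have p : 0 < ε ^ i := pow_pos hε i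
  have c : (n.choose i : ℝ) ≤ Real.exp (ε * n) / ε ^ i := by
    rw [le_div_iff₀ p]
    refine le_trans ?_ b
    rw [mul_pow, mul_div_assoc, mul_comm]
    exact mul_le_mul_of_nonneg_left a p.le
  calc _ ≤ Real.exp (ε * n) / ε ^ i * ‖(x - 1) ^ i‖ := mul_le_mul_of_nonneg_right c (norm_nonneg _)
    _ = _ := by ring

theorem lin_low {R : Type} [NormedRing R] [NormedAlgebra ℂ R] {x : R} (h : IsNilpotent (x - 1))
    (h1 : x ≠ 1) : ∃ C : ℝ, 0 ≤ C ∧ ∀ n : ℕ, n ≤ C * (‖x ^ n‖ + 1) := by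
  obtain ⟨ν, rfl⟩ : ∃ ν, x = 1 + ν := ⟨x - 1, (add_sub_cancel _ _).symm⟩
  rw [add_sub_cancel_left] at h
  obtain ⟨r, h2, h3⟩ : ∃ r, ν ^ (r + 2) = 0 ∧ ν ^ (r + 1) ≠ 0 := by
    classical
    have ex : ∃ k, ν ^ (k + 2) = 0 := h.imp fun K hK => pow_eq_zero_of_le (Nat.le_add_right _ _) hK
    refine ⟨Nat.find ex, Nat.find_spec ex, ?_⟩
    rcases hr : Nat.find ex with _ | s
    · exact fun h0 => h1 (by rw [zero_add, pow_one] at h0; rw [h0, add_zero])
    · exact Nat.find_min ex (hr ▸ Nat.lt_succ_self s)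
  have e : ∀ n : ℕ, ν ^ r * (1 + ν) ^ n = ν ^ r + (n : ℂ) • ν ^ (r + 1) := fun n => by
    induction n with
    | zero => simp
    | succ n ih =>
      rw [pow_succ, ← mul_assoc, ih, mul_add, mul_one, add_mul, smul_mul_assoc, ← pow_succ,
        ← pow_succ, h2, smul_zero, Nat.cast_succ, add_smul, one_smul, add_zero, add_assoc]
  have p := norm_pos_iff.2 h3
  refine ⟨‖ν ^ r‖ / ‖ν ^ (r + 1)‖, by positivity, fun n => ?_⟩
  have a := norm_sub_le (ν ^ r * (1 + ν) ^ n) (ν ^ r)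
  have b := norm_mul_le (ν ^ r) ((1 + ν) ^ n)
  rw [e, add_sub_cancel_left, norm_smul, Complex.norm_natCast, ← e] at a
  rw [div_mul_eq_mul_div, le_div_iff₀ p]
  linarith

theorem exists_roots {N : ℕ} (A : Matrix (Fin N) (Fin N) ℂ) :
    ∃ μ : Fin N → ℂ, A.charpoly = ∏ i, (X - C (μ i)) := by
  have h := (IsAlgClosed.splits A.charpoly).eq_prod_roots_of_monic A.charpoly_monic
  have c := (IsAlgClosed.splits A.charpoly).natDegree_eq_card_roots
  rw [charpoly_natDegree_eq_dim, Fintype.card_fin] at c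
  generalize A.charpoly.roots = s at h c
  obtain ⟨l, rfl⟩ := Quot.exists_rep s
  have c' : N = l.length := c
  subst c'
  refine ⟨l.get, h.trans ?_⟩
  rw [← List.prod_ofFn, List.ofFn_comp' l.get fun a => X - C a, List.ofFn_get]
  simp

theorem kron {N : ℕ} (U : Matrix (Fin N) (Fin N) ℤ)
    (h : ∀ μ, (U.map (Int.castRingHom ℂ)).charpoly.IsRoot μ → μ ≠ 0 ∧ ‖μ‖ ≤ 1) :
    ∃ m, 0 < m ∧ IsNilpotent (U ^ m - 1) := by
  obtain ⟨μ, hμ⟩ := exists_roots (U.map (Int.castRingHom ℂ))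
  have hm := (U.map (Int.castRingHom ℂ)).charpoly_monic
  have h1 : (U.charpoly.map (Int.castRingHom ℂ)).mahlerMeasure = 1 := by
    rw [← charpoly_map, mahlerMeasure_eq_leadingCoeff_mul_prod_roots, hm.leadingCoeff, norm_one,
      one_mul]
    refine Multiset.prod_eq_one fun a ha => ?_
    obtain ⟨z, hz, rfl⟩ := Multiset.mem_map.1 ha
    exact max_eq_left (h z (isRoot_of_mem_roots hz)).2
  have h2 : ∀ i, (U.map (Int.castRingHom ℂ)).charpoly.IsRoot (μ i) := fun i => by
    rw [hμ, IsRoot, eval_prod]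
    exact Finset.prod_eq_zero (Finset.mem_univ i) (by simp)
  choose m m0 hm1 using fun i => pow_eq_one_of_mahlerMeasure_eq_one h1 (h _ (h2 i)).1
    (show μ i ∈ (U.charpoly.map (Int.castRingHom ℂ)).roots from
      charpoly_map U (Int.castRingHom ℂ) ▸ (mem_roots hm.ne_zero).2 (h2 i))
  refine ⟨∏ i, m i, Finset.prod_pos fun i _ => m0 i, ?_⟩
  have inj : Function.Injective ((Int.castRingHom ℂ).mapMatrix (m := Fin N)) :=
    Matrix.map_injective (Int.castRingHom ℂ).injective_int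
  rw [← IsNilpotent.map_iff inj, map_sub, map_pow, map_one]
  have d : (U.map (Int.castRingHom ℂ)).charpoly ∣ ∏ _i : Fin N, (X ^ (∏ i, m i) - 1) := by
    rw [hμ]
    refine Finset.prod_dvd_prod_of_dvd _ _ fun i _ => dvd_iff_isRoot.2 ?_
    obtain ⟨k, hk⟩ := Finset.dvd_prod_of_mem m (Finset.mem_univ i)
    simp [hk, pow_mul, hm1]
  obtain ⟨q, hq⟩ := d
  have := congrArg (aeval (U.map (Int.castRingHom ℂ))) hq
  rw [map_mul, aeval_self_charpoly, zero_mul, Finset.prod_const, map_pow, map_sub, map_pow, aeval_X,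
    map_one] at this
  exact ⟨_, this⟩

theorem poly_coeff {N : ℕ} (U V : Matrix (Fin N) (Fin N) ℤ) (h : IsNilpotent (U - 1)) (j : ℕ) :
    ∃ q : ℚ[X], ∀ n : ℕ, (((U ^ n * V).charpoly.coeff j : ℤ) : ℚ) = q.eval (n : ℚ) := by
  obtain ⟨K, hK⟩ := h
  let f := (Int.castRingHom ℚ[X]).mapMatrix (m := Fin N)
  refine ⟨((∑ i ∈ Finset.range K, (descPochhammer ℚ i * C ((i.factorial : ℚ)⁻¹)) • f ((U - 1) ^ i))
    * f V).charpoly.coeff j, fun n => ?_⟩
  have e : ((∑ i ∈ Finset.range K, (descPochhammer ℚ i * C ((i.factorial : ℚ)⁻¹)) • f ((U - 1) ^ i))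
      * f V).map (evalRingHom (n : ℚ)) = (U ^ n * V).map (Int.castRingHom ℚ) := by
    have := one_add_pow hK n
    rw [add_sub_cancel] at this
    rw [this, Matrix.map_mul, Matrix.map_mul]
    congr 1
    · ext a b
      simp only [Matrix.map_apply, Matrix.sum_apply, Matrix.smul_apply, map_sum]
      refine Finset.sum_congr rfl fun i _ => ?_
      simp [f, Nat.cast_choose_eq_descPochhammer_div ℚ, div_eq_mul_inv, -map_pow, -map_sub]
    · ext a b
      simp [f]
  have := congrArg (fun M => M.charpoly.coeff j) e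
  simp only [charpoly_map, coeff_map] at this
  exact this.symm

theorem sum_lt {N : ℕ} (e : Fin N → ℝ) {S : Finset (Fin N)}
    (h : S.card = (Finset.univ.filter fun i => 0 < e i).card)
    (h' : S ≠ Finset.univ.filter fun i => 0 < e i) :
    ∑ i ∈ S, e i < ∑ i ∈ Finset.univ.filter (fun i => 0 < e i), e i := by
  obtain ⟨k, k1, k2⟩ := Finset.not_subset.1 fun hs => h' (Finset.eq_of_subset_of_card_le hs h.le).symm
  rw [← Finset.sum_filter_add_sum_filter_not S fun i => 0 < e i]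
  refine (add_le_of_nonpos_right (Finset.sum_nonpos fun i hi =>
    not_lt.1 (Finset.mem_filter.1 hi).2)).trans_lt (Finset.sum_lt_sum_of_subset
      (Finset.filter_subset_filter _ (Finset.subset_univ S)) k1 (mt (Finset.mem_of_mem_filter k) k2)
      (Finset.mem_filter.1 k1).2 fun j hj _ => (Finset.mem_filter.1 hj).2.le)

theorem esymm_lim {N : ℕ} (e : Fin N → ℝ) {l : Filter ℕ} {t : ℕ → ℝ} (ht : Tendsto t l atTop)
    {μ : ℕ → Fin N → ℂ} (h : ∀ᶠ n in l, ∀ i, ‖μ n i‖ = Real.exp (e i * t n)) :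
    Tendsto (fun n => ‖∑ S ∈ Finset.univ.powersetCard (Finset.univ.filter fun i => 0 < e i).card,
      ∏ i ∈ S, μ n i‖ * Real.exp (-((∑ i ∈ Finset.univ.filter (fun i => 0 < e i), e i) * t n))) l
      (𝓝 1) := by
  set S₀ := Finset.univ.filter fun i => 0 < e i with hS
  set D := ∑ i ∈ S₀, e i with hD
  let a : Finset (Fin N) → ℕ → ℂ := fun S n => (Real.exp (-(D * t n)) : ℂ) * ∏ i ∈ S, μ n i
  have ha : ∀ S, ∀ᶠ n in l, ‖a S n‖ = Real.exp ((∑ i ∈ S, e i - D) * t n) := fun S =>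
    h.mono fun n hn => by
      simp only [a, norm_mul, norm_prod, hn, Complex.norm_real, Real.norm_of_nonneg (Real.exp_pos _).le]
      rw [← Real.exp_sum, ← Real.exp_add, ← Finset.sum_mul]
      congr 1
      ring
  have m0 : S₀ ∈ Finset.univ.powersetCard S₀.card :=
    Finset.mem_powersetCard.2 ⟨Finset.subset_univ _, rfl⟩
  have hr : Tendsto (fun n => ∑ S ∈ (Finset.univ.powersetCard S₀.card).erase S₀, a S n) l (𝓝 0) := by
    rw [← Finset.sum_const_zero (s := (Finset.univ.powersetCard S₀.card).erase S₀)]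
    refine tendsto_finsetSum _ fun S hS' => tendsto_zero_iff_norm_tendsto_zero.2 ?_
    refine Tendsto.congr' ((ha S).mono fun n hn => hn.symm) (Real.tendsto_exp_atBot.comp
      (ht.const_mul_atTop_of_neg (sub_neg.2 (sum_lt e ?_ (Finset.ne_of_mem_erase hS')))))
    exact (Finset.mem_powersetCard.1 (Finset.mem_of_mem_erase hS')).2
  rw [← sub_zero 1, ← tendsto_sub_nhds_zero_iff, sub_zero]
  refine squeeze_zero_norm' ((ha S₀).mono fun n hn => ?_) (tendsto_zero_iff_norm_tendsto_zero.1 hr)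
  rw [← hD, sub_self, zero_mul, Real.exp_zero] at hn
  have := abs_norm_sub_norm_le (∑ S ∈ Finset.univ.powersetCard S₀.card, a S n) (a S₀ n)
  rw [hn, ← Finset.add_sum_erase _ _ m0, add_sub_cancel_left, Finset.add_sum_erase _ (a · n) m0,
    ← Finset.mul_sum, norm_mul, Complex.norm_real, Real.norm_of_nonneg (Real.exp_pos _).le,
    mul_comm] at this
  exact this

theorem poly_lim {l : Filter ℕ} [l.NeBot] (hl : l ≤ atTop) (q : ℚ[X]) {t : ℕ → ℝ} {c D : ℝ}
    (hc : 0 < c) (ht : Tendsto t l atTop) (hr : Tendsto (fun n => Real.exp (t n) / n) l (𝓝 c))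
    (hf : Tendsto (fun n : ℕ => |((q.eval (n : ℚ) : ℚ) : ℝ)| * Real.exp (-(D * t n))) l (𝓝 1)) :
    ∃ d : ℕ, D = d ∧ ¬ Irrational (c ^ d) := by
  have q0 : q ≠ 0 := by
    rintro rfl
    simp only [eval_zero, Rat.cast_zero, abs_zero, zero_mul] at hf
    exact zero_ne_one (tendsto_nhds_unique tendsto_const_nhds hf)
  set d := q.natDegree
  have pos : ∀ᶠ n : ℕ in l, (0 : ℝ) < n := hl ((eventually_gt_atTop 0).mono fun n hn => by
    exact_mod_cast hn)
  have hg : Tendsto (fun n : ℕ => |((q.eval (n : ℚ) : ℚ) : ℝ)| / (n : ℝ) ^ d) l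
      (𝓝 |(q.leadingCoeff : ℝ)|) := by
    have a := (q.map (Rat.castHom ℝ)).isEquivalent_atTop_lead.div
      (Asymptotics.IsEquivalent.refl (u := fun x : ℝ => x ^ d))
    rw [natDegree_map, leadingCoeff_map] at a
    have b := (a.symm.tendsto_nhds (c := (q.leadingCoeff : ℝ)) (tendsto_const_nhds.congr'
      ((eventually_gt_atTop 0).mono fun x hx => by
        simp only [Pi.div_apply]
        exact (mul_div_cancel_right₀ _ (pow_pos hx d).ne').symm))).abs
    refine ((b.comp tendsto_natCast_atTop_atTop).mono_left hl).congr fun n => ?_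
    have := eval_map_apply (p := q) (Rat.castHom ℝ) (n : ℚ)
    simp only [map_natCast] at this
    simp only [Function.comp, Pi.div_apply, abs_div, this, abs_pow, Nat.abs_cast]
    rfl
  have L0 : 0 < |(q.leadingCoeff : ℝ)| :=
    abs_pos.2 (by exact_mod_cast leadingCoeff_ne_zero.2 q0)
  have k := hf.mul (hr.pow d)
  rw [one_mul] at k
  have id : ∀ᶠ n : ℕ in l, |((q.eval (n : ℚ) : ℚ) : ℝ)| * Real.exp (-(D * t n))
      * (Real.exp (t n) / n) ^ d
      = |((q.eval (n : ℚ) : ℚ) : ℝ)| / (n : ℝ) ^ d * Real.exp ((d - D) * t n) :=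
    pos.mono fun n _ => by
      rw [div_pow, ← Real.exp_nat_mul, sub_mul, sub_eq_add_neg, Real.exp_add]
      ring
  have k' := k.congr' id
  rcases lt_trichotomy D d with h | h | h
  · exact absurd (hg.pos_mul_atTop L0 (Real.tendsto_exp_atTop.comp
      (ht.const_mul_atTop (sub_pos.2 h)))) (not_tendsto_atTop_of_tendsto_nhds k')
  · refine ⟨d, h, fun hi => ?_⟩
    simp only [h, sub_self, zero_mul, Real.exp_zero, mul_one] at k'
    rw [tendsto_nhds_unique k' hg, ← Rat.cast_abs] at hi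
    exact Rat.not_irrational _ hi
  · have := tendsto_nhds_unique k' (hg.mul (Real.tendsto_exp_atBot.comp
      (ht.const_mul_atTop_of_neg (sub_neg.2 h))))
    rw [mul_zero] at this
    exact absurd this (pow_pos hc d).ne'

end Pool.Agent.MP_d97ab6_al.H91.NG
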