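import Pool.Agent.MP_d97ab6_al.H70.NGA

/-! Growth exponents for a linear group lying properly above `SL(2,ℝ)`. -/

namespace Pool.Agent.MP_d97ab6_al.H91.NG

open Matrix Polynomial Filter Topology
open scoped Matrix.Norms.Operator

abbrev S2 : Type := Matrix.SpecialLinearGroup (Fin 2) ℝ

def tT (s : ℝ) : S2 := ⟨!![1, s; 0, 1], by simp [det_fin_two]⟩

def tL (s : ℝ) : S2 := ⟨!![1, 0; s, 1], by simp [det_fin_two]⟩

noncomputable def tD (t : ℝ) : S2 :=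
  ⟨!![Real.exp t, 0; 0, Real.exp (-t)], by simp [det_fin_two, ← Real.exp_add]⟩

theorem tT_pow (s : ℝ) (n : ℕ) : tT s ^ n = tT (n * s) := by
  induction n with
  | zero => ext i j; fin_cases i <;> fin_cases j <;> simp [tT]
  | succ n ih =>
    rw [pow_succ, ih]
    ext i j
    fin_cases i <;> fin_cases j <;> simp [tT, mul_apply, Fin.sum_univ_two]
    ring

theorem tL_pow (s : ℝ) (n : ℕ) : tL s ^ n = tL (n * s) := by
  induction n with
  | zero => ext i j; fin_cases i <;> fin_cases j <;> simp [tL]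
  | succ n ih =>
    rw [pow_succ, ih]
    ext i j
    fin_cases i <;> fin_cases j <;> simp [tL, mul_apply, Fin.sum_univ_two]
    ring

theorem tD_add (s t : ℝ) : tD (s + t) = tD s * tD t := by
  ext i j
  fin_cases i <;> fin_cases j <;> simp [tD, mul_apply, Fin.sum_univ_two, ← Real.exp_add]
  ring

theorem tD_pow (t : ℝ) (n : ℕ) : tD t ^ n = tD (n * t) := by
  induction n with
  | zero => ext i j; fin_cases i <;> fin_cases j <;> simp [tD]
  | succ n ih => rw [pow_succ, ih, ← tD_add, Nat.cast_succ, add_mul, one_mul]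

theorem tT_tD (s t : ℝ) : tT s * tD t = tD t * tT (s / Real.exp (2 * t)) := by
  have e : Real.exp (2 * t) = Real.exp t * Real.exp t := by rw [← Real.exp_add, two_mul]
  have p := (Real.exp_pos t).ne'
  ext i j
  fin_cases i <;> fin_cases j <;> simp [tD, tT, mul_apply, Fin.sum_univ_two, e, Real.exp_neg]
  field_simp

theorem tT_ne {s : ℝ} (h : s ≠ 0) : tT s ≠ 1 := fun e => h (by
  simpa [tT] using congrArg (fun M : S2 => M.1 0 1) e)

theorem exists_t {c : ℝ} (hc : 0 < c) : ∃ t, 0 < t ∧ Real.exp t + Real.exp (-t) = 2 + c := by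
  have h := Real.sq_sqrt (show 0 ≤ c * (c + 4) by positivity)
  have h0 := Real.sqrt_nonneg (c * (c + 4))
  have p : 1 < (2 + c + √(c * (c + 4))) / 2 := by linarith
  refine ⟨Real.log ((2 + c + √(c * (c + 4))) / 2), Real.log_pos p, ?_⟩
  rw [Real.exp_neg, Real.exp_log (by linarith), inv_eq_of_mul_eq_one_right
    (b := (2 + c - √(c * (c + 4))) / 2) (by linarith)]
  ring

theorem diag {s b t : ℝ} (hb : 0 < b) (ht : 0 < t)
    (h : Real.exp t + Real.exp (-t) = 2 + s * b) : ∃ P : S2, tT s * tL b * P = P * tD t := by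
  have e : Real.exp t * Real.exp (-t) = 1 := by rw [← Real.exp_add, add_neg_cancel, Real.exp_zero]
  have p : (b * (Real.exp t - Real.exp (-t))) ≠ 0 :=
    (mul_pos hb (sub_pos.2 (Real.exp_lt_exp.2 (by linarith)))).ne'
  obtain ⟨δ, hδ⟩ : ∃ δ, δ * (b * (Real.exp t - Real.exp (-t))) = 1 := ⟨_, inv_mul_cancel₀ p⟩
  refine ⟨⟨!![Real.exp t - 1, δ * (Real.exp (-t) - 1); b, δ * b], by
    rw [det_fin_two_of]; linear_combination hδ⟩, ?_⟩
  ext i j
  fin_cases i <;> fin_cases j <;> simp [tD, tT, tL, mul_apply, Fin.sum_univ_two]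
  · linear_combination (-Real.exp t) * h + e
  · linear_combination (-δ * Real.exp (-t)) * h + δ * e
  · ring
  · ring

/-- A group with a linear representation, proper above `SL(2,ℝ)`. -/
structure Cov {G : Type} [Group G] {N : ℕ} (ρ : G →* Matrix (Fin N) (Fin N) ℂ) (π : G →* S2) :
    Prop where
  surj : Function.Surjective π
  bd : ∀ R : ℝ, ∃ C, 0 ≤ C ∧ ∀ g, (∀ i j, |(π g).1 i j| ≤ R) → ‖ρ g‖ ≤ C
  faith : ∀ g, ρ g = 1 → π g = 1

variable {G : Type} [Group G] {N : ℕ} {ρ : G →* Matrix (Fin N) (Fin N) ℂ} {π : G →* S2}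

theorem eig {g : G} {μ : ℂ} (h : (ρ g).charpoly.IsRoot μ) :
    ∃ w : Fin N → ℂ, w ≠ 0 ∧ ρ g *ᵥ w = μ • w := by
  rw [IsRoot, eval_charpoly] at h
  obtain ⟨w, w0, hw⟩ := exists_mulVec_eq_zero_iff.2 h
  refine ⟨w, w0, ?_⟩
  rw [sub_mulVec, sub_eq_zero] at hw
  rw [← hw]
  ext i
  simp [scalar_apply, mulVec_diagonal]

theorem eig_pow {g : G} {μ : ℂ} {w : Fin N → ℂ} (h : ρ g *ᵥ w = μ • w) (n : ℕ) :
    ρ (g ^ n) *ᵥ w = μ ^ n • w := by
  induction n with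
  | zero => simp
  | succ n ih => rw [pow_succ, map_mul, ← mulVec_mulVec, h, mulVec_smul, ih, smul_smul, pow_succ']

theorem act_ne (g : G) {w : Fin N → ℂ} (h : w ≠ 0) : ρ g *ᵥ w ≠ 0 := fun e => h (by
  rw [← one_mulVec w, ← map_one ρ, ← inv_mul_cancel g, map_mul, ← mulVec_mulVec, e, mulVec_zero])

theorem root_ne {g : G} {μ : ℂ} (h : (ρ g).charpoly.IsRoot μ) : μ ≠ 0 := by
  obtain ⟨w, w0, hw⟩ := eig h
  exact fun e => act_ne g w0 (by rw [hw, e, zero_smul])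

/-- Vectors whose growth exponent is at most `e`. -/
def Wsp (ρ : G →* Matrix (Fin N) (Fin N) ℂ) (π : G →* S2) (e : ℝ) : Submodule ℂ (Fin N → ℂ) where
  carrier := {w | ∃ C, 0 ≤ C ∧ ∀ s, 0 ≤ s → ∀ y, π y = tD s → ‖ρ y *ᵥ w‖ ≤ C * Real.exp (e * s)}
  add_mem' := fun ⟨C, c0, hC⟩ ⟨C', c1, hC'⟩ => ⟨C + C', add_nonneg c0 c1, fun s hs y hy => by
    rw [mulVec_add, add_mul]
    exact norm_add_le_of_le (hC s hs y hy) (hC' s hs y hy)⟩
  zero_mem' := ⟨0, le_rfl, fun s _ y _ => by simp⟩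
  smul_mem' := fun c w ⟨C, c0, hC⟩ => ⟨‖c‖ * C, by positivity, fun s hs y hy => by
    rw [mulVec_smul, norm_smul, mul_assoc]
    exact mul_le_mul_of_nonneg_left (hC s hs y hy) (norm_nonneg c)⟩

theorem Wsp_mono {e e' : ℝ} (h : e ≤ e') : Wsp ρ π e ≤ Wsp ρ π e' :=
  fun _ ⟨C, c0, hC⟩ => ⟨C, c0, fun s hs y hy => (hC s hs y hy).trans
    (mul_le_mul_of_nonneg_left (Real.exp_le_exp.2 (mul_le_mul_of_nonneg_right h hs)) c0)⟩

/-- The growth exponents. -/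
def Ex (ρ : G →* Matrix (Fin N) (Fin N) ℂ) (π : G →* S2) : Set ℝ :=
  {e | ∃ w ∈ Wsp ρ π e, ∀ e', e' < e → w ∉ Wsp ρ π e'}

theorem Ex_finite : (Ex ρ π).Finite := by
  refine Set.Finite.of_finite_image (f := fun e => Module.finrank ℂ (Wsp ρ π e))
    ((Set.finite_Iic (Module.finrank ℂ (Fin N → ℂ))).subset ?_) (StrictMonoOn.injOn ?_)
  · rintro _ ⟨e, -, rfl⟩
    exact Submodule.finrank_le _
  · rintro e - e' ⟨w, h1, h2⟩ h
    exact Submodule.finrank_lt_finrank_of_lt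
      (lt_of_le_of_ne (Wsp_mono h.le) fun q => h2 e h (q ▸ h1))

theorem Cov.mem_Ex (h : Cov ρ π) {x : G} {t e : ℝ} (ht : 0 < t) (hx : π x = tD t) {μ : ℂ}
    {w : Fin N → ℂ} (w0 : w ≠ 0) (hw : ρ x *ᵥ w = μ • w) (he : ‖μ‖ = Real.exp (e * t)) :
    e ∈ Ex ρ π := by
  obtain ⟨C, c0, hC⟩ := h.bd (Real.exp t)
  have nw : ∀ i : ℕ, ‖ρ (x ^ i) *ᵥ w‖ = Real.exp (e * (i * t)) * ‖w‖ := fun i => by
    rw [eig_pow hw, norm_smul, norm_pow, he, ← Real.exp_nat_mul, mul_left_comm]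
  refine ⟨w, ⟨C * (Real.exp (|e| * t) * ‖w‖), by positivity, fun s hs y hy => ?_⟩,
    fun e' he' ⟨C', _, hC'⟩ => ?_⟩
  · obtain ⟨i, r, r0, r1, rfl⟩ : ∃ (i : ℕ) (r : ℝ), 0 ≤ r ∧ r ≤ t ∧ s = r + i * t := by
      have a := (le_div_iff₀ ht).1 (Nat.floor_le (div_nonneg hs ht.le))
      have b := (div_lt_iff₀ ht).1 (Nat.lt_floor_add_one (s / t))
      exact ⟨⌊s / t⌋₊, s - ⌊s / t⌋₊ * t, by linarith, by linarith, by ring⟩
    have e1 : π (y * (x ^ i)⁻¹) = tD r := by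
      rw [map_mul, map_inv, map_pow, hx, hy, tD_pow, tD_add, mul_inv_cancel_right]
    have e2 : ‖ρ (y * (x ^ i)⁻¹)‖ ≤ C := hC _ fun a b => by
      rw [e1]
      fin_cases a <;> fin_cases b <;> simp [tD, (Real.exp_pos _).le] <;> linarith
    have e3 : ρ y *ᵥ w = ρ (y * (x ^ i)⁻¹) *ᵥ (ρ (x ^ i) *ᵥ w) := by
      rw [mulVec_mulVec, ← map_mul, inv_mul_cancel_right]
    have e4 : Real.exp (e * (i * t)) ≤ Real.exp (|e| * t) * Real.exp (e * (r + i * t)) := by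
      rw [← Real.exp_add, Real.exp_le_exp]
      nlinarith [neg_abs_le e, abs_nonneg e]
    rw [e3]
    refine (linfty_opNorm_mulVec _ _).trans ?_
    rw [nw]
    calc _ ≤ C * (Real.exp (|e| * t) * Real.exp (e * (r + i * t)) * ‖w‖) := by gcongr
      _ = _ := by ring
  · have T := (Real.tendsto_exp_atTop.comp ((tendsto_natCast_atTop_atTop.atTop_mul_const
      ht).const_mul_atTop (sub_pos.2 he'))).atTop_mul_const (norm_pos_iff.2 w0)
    obtain ⟨i, hi⟩ := (T.eventually_gt_atTop C').exists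
    have := hC' (i * t) (by positivity) (x ^ i) (by rw [map_pow, hx, tD_pow])
    rw [nw] at this
    have e5 : Real.exp (e * (i * t)) = Real.exp ((e - e') * (i * t)) * Real.exp (e' * (i * t)) := by
      rw [← Real.exp_add]; congr 1; ring
    rw [e5, mul_right_comm] at this
    exact absurd (le_of_mul_le_mul_right this (Real.exp_pos _)) (not_le.2 hi)

theorem Cov.root_Ex (h : Cov ρ π) {g : G} {t : ℝ} {P : S2} (ht : 0 < t) (hg : π g * P = P * tD t)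
    {μ : ℂ} (hμ : (ρ g).charpoly.IsRoot μ) : ∃ e ∈ Ex ρ π, ‖μ‖ = Real.exp (e * t) := by
  obtain ⟨p, rfl⟩ := h.surj P
  obtain ⟨w, w0, hw⟩ := eig hμ
  have he : ‖μ‖ = Real.exp (Real.log ‖μ‖ / t * t) := by
    rw [div_mul_cancel₀ _ ht.ne', Real.exp_log (norm_pos_iff.2 (root_ne hμ))]
  refine ⟨_, h.mem_Ex (x := p⁻¹ * g * p) ht ?_ (act_ne (ρ := ρ) p⁻¹ w0) ?_ he, he⟩
  · rw [map_mul, map_mul, map_inv, mul_assoc, hg, inv_mul_cancel_left]
  · rw [mulVec_mulVec, ← map_mul, mul_inv_cancel_right, map_mul, ← mulVec_mulVec, hw, mulVec_smul]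

theorem Cov.unip_le (h : Cov ρ π) {x u : G} {t a : ℝ} (hx : π x = tD t) (hu : π u = tT a) :
    ∃ C, 0 ≤ C ∧ ∀ j n : ℕ, n ≤ Real.exp (2 * (j * t)) →
      ‖ρ u ^ n‖ ≤ C * (‖ρ x ^ j‖ * ‖ρ x⁻¹ ^ j‖) := by
  obtain ⟨C, c0, hC⟩ := h.bd (max 1 |a|)
  refine ⟨C, c0, fun j n hn => ?_⟩
  have e1 : π (x⁻¹ ^ j * (u ^ n * x ^ j)) = tT (n * a / Real.exp (2 * (j * t))) := by
    rw [inv_pow, map_mul, map_mul, map_inv, map_pow, map_pow, hx, hu, tD_pow, tT_pow, tT_tD,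
      inv_mul_cancel_left]
  have e2 : ‖ρ (x⁻¹ ^ j * (u ^ n * x ^ j))‖ ≤ C := hC _ fun a b => by
    rw [e1]
    fin_cases a <;> fin_cases b <;> simp [tT]
    refine Or.inr ?_
    rw [abs_div, abs_mul, Nat.abs_cast, abs_of_pos (Real.exp_pos _), div_le_iff₀ (Real.exp_pos _),
      mul_comm]
    exact mul_le_mul_of_nonneg_left hn (abs_nonneg _)
  have e3 : ρ u ^ n = ρ x ^ j * ρ (x⁻¹ ^ j * (u ^ n * x ^ j)) * ρ x⁻¹ ^ j := by
    rw [← map_pow, ← map_pow, ← map_pow, ← map_mul, ← map_mul, inv_pow, mul_inv_cancel_left,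
      mul_inv_cancel_right]
  rw [e3]
  calc _ ≤ ‖ρ x ^ j‖ * C * ‖ρ x⁻¹ ^ j‖ := (norm_mul_le _ _).trans (mul_le_mul_of_nonneg_right
      ((norm_mul_le _ _).trans (mul_le_mul_of_nonneg_left e2 (norm_nonneg _))) (norm_nonneg _))
    _ = _ := by ring

theorem Cov.root_le (h : Cov ρ π) {u : G} {a : ℝ} (hu : π u = tT a) {μ : ℂ}
    (hμ : (ρ u).charpoly.IsRoot μ) : ‖μ‖ ≤ 1 := by
  obtain ⟨x, hx⟩ := h.surj (tD 1)
  obtain ⟨C, c0, hC⟩ := h.unip_le hx hu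
  obtain ⟨w, w0, hw⟩ := eig hμ
  by_contra! hr
  set K := ‖ρ x‖ * ‖ρ x⁻¹‖ + 1 with hK
  have K0 : 0 < K := by positivity
  obtain ⟨j, h1, j0⟩ := (((tendsto_pow_atTop_atTop_of_one_lt hr).eventually_ge_atTop
    ((C + 1) * K)).and (eventually_gt_atTop 0)).exists
  have a1 := hC j (j * j) (by
    have := Real.add_one_le_exp (j : ℝ)
    rw [mul_one, two_mul, Real.exp_add, Nat.cast_mul]
    exact mul_self_le_mul_self (Nat.cast_nonneg j) (by linarith))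
  have a2 : ‖μ‖ ^ (j * j) ≤ ‖ρ u ^ (j * j)‖ := by
    refine le_of_mul_le_mul_right ?_ (norm_pos_iff.2 w0)
    rw [← norm_pow, ← norm_smul, ← eig_pow hw, map_pow]
    exact linfty_opNorm_mulVec _ _
  have a3 : ‖ρ x ^ j‖ * ‖ρ x⁻¹ ^ j‖ ≤ K ^ j :=
    (mul_le_mul (norm_pow_le' _ j0) (norm_pow_le' _ j0) (norm_nonneg _) (by positivity)).trans
      (by rw [← mul_pow]; exact pow_le_pow_left₀ (by positivity) (by linarith) j)
  have a4 : (C + 1) * K ^ j ≤ ‖μ‖ ^ (j * j) := by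
    rw [pow_mul]
    refine le_trans ?_ (pow_le_pow_left₀ (by positivity) h1 j)
    rw [mul_pow]
    exact mul_le_mul_of_nonneg_right (le_self_pow₀ (by linarith) j0.ne') (by positivity)
  nlinarith [pow_pos K0 j, mul_le_mul_of_nonneg_left a3 c0]

theorem Cov.not_unip (h : Cov ρ π) {g u : G} {t a : ℝ} {P : S2} (ht : 0 < t)
    (hg : π g * P = P * tD t) (ha : a ≠ 0) (hu : π u = tT a) (nu : IsNilpotent (ρ u - 1))
    (ng : IsNilpotent (ρ g - 1)) : False := by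
  obtain ⟨p, rfl⟩ := h.surj P
  obtain ⟨x, hx, nx⟩ : ∃ x, π x = tD t ∧ IsNilpotent (ρ x - 1) := by
    refine ⟨p⁻¹ * g * p, by rw [map_mul, map_mul, map_inv, mul_assoc, hg, inv_mul_cancel_left],
      ng.imp fun K hK => ?_⟩
    have s : SemiconjBy (ρ p) (ρ (p⁻¹ * g * p) - 1) (ρ g - 1) := by
      rw [SemiconjBy, mul_sub, sub_mul, ← map_mul, ← map_mul, mul_assoc, mul_inv_cancel_left,
        mul_one, one_mul]
    have := congrArg (ρ p⁻¹ * ·) (s.pow_right K).eq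
    simpa only [hK, zero_mul, mul_zero, ← mul_assoc, ← map_mul, inv_mul_cancel, map_one, one_mul]
      using this
  have nx' : IsNilpotent (ρ x⁻¹ - 1) := by
    have e : ρ x⁻¹ - 1 = -(ρ x⁻¹ * (ρ x - 1)) := by
      rw [mul_sub, ← map_mul, inv_mul_cancel, map_one, mul_one, neg_sub]
    rw [e]
    exact ((((Commute.refl x).inv_left.map ρ).sub_right
      (Commute.one_right _)).isNilpotent_mul_left nx).neg
  obtain ⟨C, c0, hC⟩ := h.unip_le hx hu
  obtain ⟨C1, c1, h1⟩ := sub_exp nx (half_pos ht)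
  obtain ⟨C2, c2, h2⟩ := sub_exp nx' (half_pos ht)
  obtain ⟨C3, c3, h3⟩ := lin_low nu fun e => tT_ne ha (hu ▸ h.faith u e)
  obtain ⟨j, hj⟩ := ((Real.tendsto_exp_atTop.comp (tendsto_natCast_atTop_atTop.atTop_mul_const
    ht)).eventually_gt_atTop (C3 * (C * (C1 * C2)) + C3 + 1)).exists
  have a1 := hC j _ (Nat.floor_le (Real.exp_pos _).le)
  have a2 := Nat.lt_floor_add_one (Real.exp (2 * (j * t)))
  have a3 := h3 ⌊Real.exp (2 * (j * t))⌋₊
  have a4 : ‖ρ x ^ j‖ * ‖ρ x⁻¹ ^ j‖ ≤ C1 * C2 * Real.exp (j * t) :=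
    (mul_le_mul (h1 j) (h2 j) (norm_nonneg _) (by positivity)).trans_eq (by
      rw [mul_mul_mul_comm, ← Real.exp_add]; congr 2; ring)
  have a5 := mul_le_mul_of_nonneg_left (a1.trans (mul_le_mul_of_nonneg_left a4 c0)) c3
  have a6 : 1 ≤ Real.exp (j * t) := Real.one_le_exp (by positivity)
  generalize (⌊Real.exp (2 * (j * t))⌋₊ : ℕ) = n at a2 a3 a5
  rw [two_mul, Real.exp_add] at a2
  change _ < Real.exp (j * t) at hj
  nlinarith [mul_lt_mul_of_pos_right hj (Real.exp_pos (j * t))]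

end Pool.Agent.MP_d97ab6_al.H91.NG
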